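import Pool.Agent.W374.BA.Mult

set_option autoImplicit false

open MeasureTheory Set Filter Topology
open scoped SchwartzMap FourierTransform LineDeriv ContDiff Convolution

namespace Pool.Agent.W374.BABack

open Pool.Agent.W779.Morrey Pool.Agent.W802.BA Pool.Agent.W374.BAMult

/-! ### The multiplier acts on derivatives -/

noncomputable def DZ (g : 𝓢(ℂ, ℂ)) : 𝓢(ℂ, ℂ) :=
  (1 / 2 : ℂ) • (∂_{(1 : ℂ)} g + (-Complex.I) • ∂_{Complex.I} g)

noncomputable def DB (g : 𝓢(ℂ, ℂ)) : 𝓢(ℂ, ℂ) :=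
  (1 / 2 : ℂ) • (∂_{(1 : ℂ)} g + Complex.I • ∂_{Complex.I} g)

theorem DZ_apply (g : 𝓢(ℂ, ℂ)) (z : ℂ) : DZ g z = dz g z := by
  unfold DZ dz
  simp only [_root_.smul_apply, _root_.add_apply, smul_eq_mul,
    SchwartzMap.lineDerivOp_apply_eq_fderiv]
  ring

theorem DB_apply (g : 𝓢(ℂ, ℂ)) (z : ℂ) : DB g z = dzbar g z := by
  unfold DB dzbar
  simp only [_root_.smul_apply, _root_.add_apply, smul_eq_mul,
    SchwartzMap.lineDerivOp_apply_eq_fderiv]

theorem F_line (g : 𝓢(ℂ, ℂ)) (m ξ : ℂ) : (𝓕 (∂_{m} g) : 𝓢(ℂ, ℂ)) ξ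
    = (2 * Real.pi * Complex.I) * ((inner ℝ ξ m : ℝ) * (𝓕 g : 𝓢(ℂ, ℂ)) ξ) := by
  rw [SchwartzMap.fourier_lineDerivOp_eq, _root_.smul_apply,
    SchwartzMap.smulLeftCLM_apply_apply (inner_growth m)]
  simp

theorem F_DZ (g : 𝓢(ℂ, ℂ)) (ξ : ℂ) : (𝓕 (DZ g) : 𝓢(ℂ, ℂ)) ξ
    = Real.pi * Complex.I * starRingEnd ℂ ξ * (𝓕 g : 𝓢(ℂ, ℂ)) ξ := by
  unfold DZ
  rw [FourierTransform.fourier_smul, FourierTransform.fourier_add, FourierTransform.fourier_smul]
  simp only [_root_.smul_apply, _root_.add_apply, smul_eq_mul, F_line, inner_one, inner_I]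
  have e : starRingEnd ℂ ξ = ξ.re - ξ.im * Complex.I := by
    apply Complex.ext <;> simp
  rw [e]
  ring

theorem F_DB (g : 𝓢(ℂ, ℂ)) (ξ : ℂ) : (𝓕 (DB g) : 𝓢(ℂ, ℂ)) ξ
    = Real.pi * Complex.I * ξ * (𝓕 g : 𝓢(ℂ, ℂ)) ξ := by
  unfold DB
  rw [FourierTransform.fourier_smul, FourierTransform.fourier_add, FourierTransform.fourier_smul]
  simp only [_root_.smul_apply, _root_.add_apply, smul_eq_mul, F_line, inner_one, inner_I]
  have e : ξ = ξ.re + ξ.im * Complex.I := (Complex.re_add_im ξ).symm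
  have h : (Real.pi : ℂ) * Complex.I * ξ * (𝓕 g : 𝓢(ℂ, ℂ)) ξ
      = Real.pi * Complex.I * (ξ.re + ξ.im * Complex.I) * (𝓕 g : 𝓢(ℂ, ℂ)) ξ := by
    rw [Complex.re_add_im]
  rw [h]
  ring

theorem Beu_DB (g : 𝓢(ℂ, ℂ)) : Beu (DB g) = fun z => DZ g z := by
  funext z
  unfold Beu
  have h1 : (fun ξ : ℂ => starRingEnd ℂ ξ / ξ * 𝓕 (DB g : ℂ → ℂ) ξ) = ((𝓕 (DZ g) : 𝓢(ℂ, ℂ)) : ℂ → ℂ) := by
    funext ξ
    rw [← SchwartzMap.fourier_coe, F_DB, F_DZ]
    by_cases hξ : ξ = 0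
    · subst hξ; simp
    · field_simp
  rw [h1, ← SchwartzMap.fourierInv_coe, FourierTransform.fourierInv_fourier_eq]

section

variable {p C : ℝ} (hp : 1 < p) (hC : 0 ≤ C)
  (H : ∀ f : 𝓢(ℂ, ℂ), eLpNorm (Beu f) (ENNReal.ofReal p) (volume : Measure ℂ)
      ≤ ENNReal.ofReal C * eLpNorm f (ENNReal.ofReal p) (volume : Measure ℂ))

include hp hC H in
theorem sch (g : 𝓢(ℂ, ℂ)) : ∫ z, ‖dz g z‖ ^ p ≤ C ^ p * ∫ z, ‖dzbar g z‖ ^ p := by
  have hp0 : 0 < p := by linarith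
  have h := H (DB g)
  rw [Beu_DB] at h
  have e1 : eLpNorm (fun z => DZ g z) (ENNReal.ofReal p) (volume : Measure ℂ)
      = ENNReal.ofReal ((∫ z, ‖DZ g z‖ ^ p) ^ (1 / p)) := eLp_eq hp0 (DZ g)
  rw [e1, eLp_eq hp0, ← ENNReal.ofReal_mul hC] at h
  simp only [DZ_apply, DB_apply] at h
  have h2 : 0 ≤ ∫ z, ‖dz g z‖ ^ p := integral_nonneg (fun z => Real.rpow_nonneg (norm_nonneg _) _)
  have h3 : 0 ≤ ∫ z, ‖dzbar g z‖ ^ p :=
    integral_nonneg (fun z => Real.rpow_nonneg (norm_nonneg _) _)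
  have h4 : (∫ z, ‖dz g z‖ ^ p) ^ (1 / p) ≤ C * (∫ z, ‖dzbar g z‖ ^ p) ^ (1 / p) :=
    (ENNReal.ofReal_le_ofReal_iff (mul_nonneg hC (Real.rpow_nonneg h3 _))).1 h
  have h5 := Real.rpow_le_rpow (Real.rpow_nonneg h2 _) h4 hp0.le
  rw [Real.mul_rpow hC (Real.rpow_nonneg h3 _), ← Real.rpow_mul h2, ← Real.rpow_mul h3,
    one_div_mul_cancel hp0.ne', Real.rpow_one, Real.rpow_one] at h5
  exact h5

include hp hC H in
theorem smoothc (f : ℂ → ℂ) (hf : ContDiff ℝ ∞ f) (hc : HasCompactSupport f) :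
    ∫ z, ‖dzbar f z‖ ^ p ≤ C ^ p * ∫ z, ‖dz f z‖ ^ p := by
  have hf1 : ContDiff ℝ 1 f := hf.of_le (by exact_mod_cast le_top)
  have hg : ContDiff ℝ ∞ (fun z => Complex.conjCLE (f z)) := Complex.conjCLE.contDiff.comp hf
  have hgc : HasCompactSupport (fun z => Complex.conjCLE (f z)) :=
    hc.comp_left (map_zero Complex.conjCLE)
  have h := sch hp hC H (hgc.toSchwartzMap hg)
  obtain ⟨e1, e2⟩ := conj_dz f hf1
  have e3 : ((hgc.toSchwartzMap hg : 𝓢(ℂ, ℂ)) : ℂ → ℂ) = fun z => Complex.conjCLE (f z) := rfl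
  rw [e3] at h
  simp only [e1, e2] at h
  exact h

end

/-! ### Mollification -/

/-- the mollifiers -/
noncomputable def bmp (n : ℕ) : ContDiffBump (0 : ℂ) where
  rIn := 1 / (2 * ((n : ℝ) + 1))
  rOut := 1 / ((n : ℝ) + 1)
  rIn_pos := by positivity
  rIn_lt_rOut := by
    have h : (0:ℝ) < (n : ℝ) + 1 := by positivity
    rw [div_lt_div_iff₀ (by positivity) h]
    linarith

theorem bmp_rOut (n : ℕ) : (bmp n).rOut ≤ 1 := by
  change 1 / ((n : ℝ) + 1) ≤ 1
  have h : (0:ℝ) ≤ n := Nat.cast_nonneg n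
  rw [div_le_one (by positivity)]
  linarith

theorem bmp_tendsto : Tendsto (fun n => (bmp n).rOut) atTop (𝓝 0) :=
  tendsto_one_div_add_atTop_nhds_zero_nat

theorem bmp_ne {n : ℕ} {t : ℂ} (h : (bmp n).normed volume t ≠ 0) : ‖t‖ < 1 := by
  have h1 : t ∈ Function.support ((bmp n).normed (volume : Measure ℂ)) := h
  rw [ContDiffBump.support_normed_eq, Metric.mem_ball, dist_zero_right] at h1
  linarith [bmp_rOut n]

/-- the mollified function -/
noncomputable def mo (f : ℂ → ℂ) (n : ℕ) : ℂ → ℂ :=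
  (bmp n).normed volume ⋆[ContinuousLinearMap.lsmul ℝ ℝ, volume] f

section

variable {f : ℂ → ℂ} (hf : ContDiff ℝ 1 f) (hc : HasCompactSupport f)

include hf in
theorem mo_smooth (n : ℕ) : ContDiff ℝ ∞ (mo f n) := by
  unfold mo
  exact (bmp n).hasCompactSupport_normed.contDiff_convolution_left _
    ((bmp n).contDiff_normed) (hf.continuous.locallyIntegrable)

include hc in
theorem mo_supp (n : ℕ) : HasCompactSupport (mo f n) :=
  (bmp n).hasCompactSupport_normed.convolution _ hc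

include hf hc in
theorem mo_fderiv (n : ℕ) (z : ℂ) : fderiv ℝ (mo f n) z
    = ((bmp n).normed volume ⋆[ContinuousLinearMap.lsmul ℝ ℝ, volume] (fderiv ℝ f)) z := by
  have h1 := hc.hasFDerivAt_convolution_right (ContinuousLinearMap.lsmul ℝ ℝ)
    ((bmp n).continuous_normed (μ := (volume : Measure ℂ))).locallyIntegrable
    (μ := (volume : Measure ℂ)) hf z
  have h2 : fderiv ℝ (mo f n) z = _ := h1.fderiv
  rw [h2]
  unfold convolution
  apply integral_congr_ae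
  apply Eventually.of_forall
  intro t
  ext v
  rfl

include hf hc in
theorem mo_tendsto (z : ℂ) : Tendsto (fun n => fderiv ℝ (mo f n) z) atTop (𝓝 (fderiv ℝ f z)) := by
  simp only [mo_fderiv hf hc]
  exact ContDiffBump.convolution_tendsto_right_of_continuous bmp_tendsto
    (hf.continuous_fderiv (by norm_num)) z

include hf hc in
theorem mo_bound : ∃ (R M : ℝ), 0 ≤ M ∧ ∀ n z, ‖fderiv ℝ (mo f n) z‖
    ≤ (Metric.closedBall (0 : ℂ) R).indicator (fun _ => M) z := by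
  have hcd := hf.continuous_fderiv (by norm_num)
  obtain ⟨M, hM⟩ := (hc.fderiv ℝ).exists_bound_of_continuous hcd
  obtain ⟨R, hR⟩ := hc.isCompact.isBounded.subset_closedBall (0 : ℂ)
  have hM0 : 0 ≤ M := (norm_nonneg _).trans (hM 0)
  refine ⟨R + 1, M, hM0, fun n z => ?_⟩
  rw [mo_fderiv hf hc]
  by_cases hz : z ∈ Metric.closedBall (0 : ℂ) (R + 1)
  · rw [indicator_of_mem hz]
    have h1 : ∫ t, (bmp n).normed (volume : Measure ℂ) t * M = M := by
      rw [integral_mul_const, ContDiffBump.integral_normed, one_mul]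
    rw [← h1]
    unfold convolution
    apply norm_integral_le_of_norm_le ((bmp n).integrable_normed.mul_const M)
    apply Eventually.of_forall
    intro t
    rw [ContinuousLinearMap.lsmul_apply, norm_smul, Real.norm_eq_abs,
      abs_of_nonneg ((bmp n).nonneg_normed t)]
    exact mul_le_mul_of_nonneg_left (hM _) ((bmp n).nonneg_normed t)
  · rw [indicator_of_notMem hz]
    have h1 : ((bmp n).normed volume ⋆[ContinuousLinearMap.lsmul ℝ ℝ, volume] (fderiv ℝ f)) z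
        = 0 := by
      unfold convolution
      apply integral_eq_zero_of_ae
      apply Eventually.of_forall
      intro t
      simp only [ContinuousLinearMap.lsmul_apply, Pi.zero_apply]
      by_cases ht : (bmp n).normed volume t = 0
      · rw [ht, zero_smul]
      · have h2 := bmp_ne ht
        have h3 : fderiv ℝ f (z - t) = 0 := by
          by_contra hne
          have h4 : z - t ∈ tsupport f := support_fderiv_subset ℝ hne
          have h5 := hR h4
          rw [Metric.mem_closedBall, dist_zero_right] at h5 hz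
          apply hz
          have h6 : ‖z‖ ≤ ‖z - t‖ + ‖t‖ := by
            have := norm_add_le (z - t) t
            rwa [sub_add_cancel] at this
          linarith
        rw [h3, smul_zero]
    rw [h1, norm_zero]

include hf hc in
theorem mo_int {p : ℝ} (hp : 0 < p) (Φ : (ℂ →L[ℝ] ℂ) → ℂ) (hΦ : Continuous Φ)
    (hΦ1 : ∀ L, ‖Φ L‖ ≤ ‖L‖) :
    Tendsto (fun n => ∫ z, ‖Φ (fderiv ℝ (mo f n) z)‖ ^ p) atTop
      (𝓝 (∫ z, ‖Φ (fderiv ℝ f z)‖ ^ p)) := by
  obtain ⟨R, M, hM0, hM⟩ := mo_bound hf hc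
  refine tendsto_integral_of_dominated_convergence
    (fun z => (Metric.closedBall (0 : ℂ) R).indicator (fun _ => M ^ p) z)
    (fun n => ?_) ?_ (fun n => Eventually.of_forall fun z => ?_)
    (Eventually.of_forall fun z => ?_)
  · have c1 := (mo_smooth hf n).continuous_fderiv (by simp)
    have : Continuous (fun z => ‖Φ (fderiv ℝ (mo f n) z)‖ ^ p) :=
      ((hΦ.comp c1).norm).rpow_const (fun _ => Or.inr hp.le)
    exact this.aestronglyMeasurable
  · rw [integrable_indicator_iff measurableSet_closedBall]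
    exact integrableOn_const (isCompact_closedBall _ _).measure_lt_top.ne
  · rw [Real.norm_eq_abs, abs_of_nonneg (by positivity)]
    have h1 := (hΦ1 _).trans (hM n z)
    by_cases hz : z ∈ Metric.closedBall (0 : ℂ) R
    · rw [indicator_of_mem hz] at h1 ⊢
      exact Real.rpow_le_rpow (norm_nonneg _) h1 hp.le
    · rw [indicator_of_notMem hz] at h1 ⊢
      have h2 : ‖Φ (fderiv ℝ (mo f n) z)‖ = 0 := le_antisymm h1 (norm_nonneg _)
      rw [h2, Real.zero_rpow hp.ne']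
  · exact (((hΦ.tendsto _).comp (mo_tendsto hf hc z)).norm).rpow_const (Or.inr hp.le)

end

theorem norm_comb (L : ℂ →L[ℝ] ℂ) (ε : ℂ) (hε : ‖ε‖ = 1) :
    ‖(1 / 2 : ℂ) * (L 1 + ε * L Complex.I)‖ ≤ ‖L‖ := by
  have h1 : ‖L 1‖ ≤ ‖L‖ := by simpa using L.le_opNorm 1
  have h2 : ‖L Complex.I‖ ≤ ‖L‖ := by simpa using L.le_opNorm Complex.I
  have h3 : ‖L 1 + ε * L Complex.I‖ ≤ ‖L 1‖ + ‖L Complex.I‖ := by
    refine (norm_add_le _ _).trans ?_
    rw [norm_mul, hε, one_mul]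
  have h4 : ‖(1 / 2 : ℂ)‖ = 1 / 2 := by simp
  rw [norm_mul, h4]
  linarith

theorem back : S_Back := by
  intro p C hp hC H f hf hc
  have hp0 : 0 < p := by linarith
  have hcont : ∀ ε : ℂ, Continuous (fun L : ℂ →L[ℝ] ℂ => (1 / 2 : ℂ) * (L 1 + ε * L Complex.I)) := by
    intro ε
    fun_prop
  have hL := mo_int hf hc hp0 _ (hcont Complex.I) (fun L => norm_comb L _ Complex.norm_I)
  have hR := mo_int hf hc hp0 _ (hcont (-Complex.I))
    (fun L => norm_comb L _ (by rw [norm_neg, Complex.norm_I]))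
  have e1 : ∀ (h : ℂ → ℂ) z, (1 / 2 : ℂ) * (fderiv ℝ h z 1 + Complex.I * fderiv ℝ h z Complex.I)
      = dzbar h z := fun h z => rfl
  have e2 : ∀ (h : ℂ → ℂ) z, (1 / 2 : ℂ) * (fderiv ℝ h z 1 + -Complex.I * fderiv ℝ h z Complex.I)
      = dz h z := by
    intro h z
    unfold dz
    ring
  simp only [e1] at hL
  simp only [e2] at hR
  exact le_of_tendsto_of_tendsto' hL (hR.const_mul (C ^ p)) fun n =>
    smoothc hp hC H (mo f n) (mo_smooth hf n) (mo_supp hc n)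

end Pool.Agent.W374.BABack
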