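import Pool.Agent.W802.BA.Stms
import Pool.Agent.W779.Morrey.BeurlingNorm

set_option autoImplicit false

open MeasureTheory Set Filter Topology
open scoped SchwartzMap FourierTransform

namespace Pool.Agent.W374.BAMult

open Pool.Agent.W779.Morrey Pool.Agent.W802.BA

section

variable {p C : ℝ} (hp : 2 ≤ p) (hC : 0 ≤ C)
  (H : ∀ f : ℂ → ℂ, ContDiff ℝ 1 f → HasCompactSupport f →
      ∫ z, ‖dzbar f z‖ ^ p ≤ C ^ p * ∫ z, ‖dz f z‖ ^ p)

/-- conjugate function -/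
theorem conj_dz (f : ℂ → ℂ) (hf : ContDiff ℝ 1 f) :
    (∀ z, ‖dzbar (fun z => Complex.conjCLE (f z)) z‖ = ‖dz f z‖) ∧
    ∀ z, ‖dz (fun z => Complex.conjCLE (f z)) z‖ = ‖dzbar f z‖ := by
  set g : ℂ → ℂ := fun z => Complex.conjCLE (f z) with hg
  have hfd : ∀ z v, fderiv ℝ g z v = (starRingEnd ℂ) (fderiv ℝ f z v) := by
    intro z v
    have h1 : HasFDerivAt f (fderiv ℝ f z) z := (hf.differentiable (by norm_num) z).hasFDerivAt
    have h2 : HasFDerivAt g ((Complex.conjCLE : ℂ →L[ℝ] ℂ).comp (fderiv ℝ f z)) z :=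
      (Complex.conjCLE : ℂ →L[ℝ] ℂ).hasFDerivAt.comp z h1
    rw [h2.fderiv]
    rfl
  constructor
  · intro z
    have : dzbar g z = (starRingEnd ℂ) (dz f z) := by
      simp only [dzbar, dz, hfd, map_mul, map_sub, map_div₀, map_one, map_ofNat, Complex.conj_I]
      ring
    rw [this, RCLike.norm_conj]
  · intro z
    have : dz g z = (starRingEnd ℂ) (dzbar f z) := by
      simp only [dzbar, dz, hfd, map_mul, map_add, map_div₀, map_one, map_ofNat, Complex.conj_I]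
      ring
    rw [this, RCLike.norm_conj]

include H in
theorem exch (f : ℂ → ℂ) (hf : ContDiff ℝ 1 f) (hc : HasCompactSupport f) :
    ∫ z, ‖dz f z‖ ^ p ≤ C ^ p * ∫ z, ‖dzbar f z‖ ^ p := by
  have h := H (fun z => Complex.conjCLE (f z)) (Complex.conjCLE.contDiff.comp hf)
    (hc.comp_left (map_zero Complex.conjCLE))
  obtain ⟨e1, e2⟩ := conj_dz f hf
  simp only [e1, e2] at h
  exact h

include H hp in
theorem schwartz (u : 𝓢(ℂ, ℂ)) :
    ∫ z, ‖dz u z‖ ^ p ≤ C ^ p * ∫ z, ‖dzbar u z‖ ^ p := by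
  have hp0 : 0 ≤ p := by linarith
  obtain ⟨C', hC0, hC'⟩ := fderiv_cutn_bound
  set un : ℕ → ℂ → ℂ := fun n z => cutn n z • u z with hun
  have hud : ∀ z, HasFDerivAt (u : ℂ → ℂ) (fderiv ℝ u z) z := fun z => u.differentiableAt.hasFDerivAt
  have hcd : ∀ n z, HasFDerivAt (cutn n) (fderiv ℝ (cutn n) z) z := fun n z =>
    ((contDiff_cutn n (m := 1)).differentiable (by norm_num) z).hasFDerivAt
  have hfd : ∀ n z, fderiv ℝ (un n) z
      = cutn n z • fderiv ℝ u z + (fderiv ℝ (cutn n) z).smulRight (u z) := fun n z =>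
    ((hcd n z).smul (hud z)).fderiv
  have hbd : ∀ n z, ‖fderiv ℝ (un n) z‖ ≤ ‖fderiv ℝ u z‖ + C' * ‖u z‖ := by
    intro n z
    rw [hfd]
    refine (norm_add_le _ _).trans (add_le_add ?_ ?_)
    · rw [norm_smul, Real.norm_eq_abs]
      exact mul_le_of_le_one_left (norm_nonneg _) (cutn_abs_le n z)
    · rw [ContinuousLinearMap.norm_smulRight_apply]
      refine mul_le_mul_of_nonneg_right ((hC' n z).trans ?_) (norm_nonneg _)
      refine div_le_self hC0 ?_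
      have : (0:ℝ) ≤ n := Nat.cast_nonneg n
      linarith
  have hlimd : ∀ z, Tendsto (fun n => fderiv ℝ (un n) z) atTop (𝓝 (fderiv ℝ u z)) := by
    intro z
    simp only [hfd]
    have h1 : Tendsto (fun n => cutn n z • fderiv ℝ u z) atTop (𝓝 (fderiv ℝ u z)) := by
      refine tendsto_const_nhds.congr' ?_
      filter_upwards [cutn_tendsto z] with n hn
      rw [hn, one_smul]
    have h2 : Tendsto (fun n => (fderiv ℝ (cutn n) z).smulRight (u z)) atTop (𝓝 0) := by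
      rw [tendsto_zero_iff_norm_tendsto_zero]
      refine squeeze_zero (fun n => norm_nonneg _) (g := fun n : ℕ => C' / ((n : ℝ) + 1) * ‖u z‖)
        (fun n => ?_) ?_
      · rw [ContinuousLinearMap.norm_smulRight_apply]
        exact mul_le_mul_of_nonneg_right (hC' n z) (norm_nonneg _)
      · have : Tendsto (fun n : ℕ => C' / ((n : ℝ) + 1)) atTop (𝓝 0) :=
          tendsto_const_nhds.div_atTop
            (tendsto_atTop_add_const_right _ _ tendsto_natCast_atTop_atTop)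
        simpa using this.mul_const ‖u z‖
    simpa using h1.add h2
  have hl : ∀ z v, Tendsto (fun n => fderiv ℝ (un n) z v) atTop (𝓝 (fderiv ℝ u z v)) :=
    fun z v => ((ContinuousLinearMap.apply ℝ ℂ v).continuous.tendsto _).comp (hlimd z)
  have hund : ∀ n, ContDiff ℝ 1 (un n) := fun n => (contDiff_cutn n (m := 1)).smul (u.smooth 1)
  have hunc : ∀ n, HasCompactSupport (un n) := fun n => (cutn_support n).smul_right
  have hbint : Integrable (fun z => (‖fderiv ℝ u z‖ + C' * ‖u z‖) ^ p) := by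
    have m1 : MemLp (fun z => ‖fderiv ℝ u z‖) (ENNReal.ofReal p) (volume : Measure ℂ) :=
      ((SchwartzMap.fderivCLM ℝ ℂ ℂ u).memLp (ENNReal.ofReal p) volume).norm
    have m2 : MemLp (fun z => C' * ‖u z‖) (ENNReal.ofReal p) (volume : Measure ℂ) :=
      ((u.memLp (ENNReal.ofReal p) volume).norm).const_mul C'
    have m3 := (m1.add m2).integrable_norm_rpow (by
      rw [Ne, ENNReal.ofReal_eq_zero, not_le]; linarith) ENNReal.ofReal_ne_top
    rw [ENNReal.toReal_ofReal hp0] at m3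
    refine m3.congr (Eventually.of_forall fun z => ?_)
    simp only [Pi.add_apply, Real.norm_eq_abs]
    rw [abs_of_nonneg (by positivity)]
  have hL : Tendsto (fun n => ∫ z, ‖dz (un n) z‖ ^ p) atTop (𝓝 (∫ z, ‖dz u z‖ ^ p)) := by
    refine tendsto_integral_of_dominated_convergence (fun z => (‖fderiv ℝ u z‖ + C' * ‖u z‖) ^ p)
      (fun n => ?_) hbint (fun n => Eventually.of_forall fun z => ?_)
      (Eventually.of_forall fun z => ?_)
    · have c1 := (hund n).continuous_fderiv (by norm_num)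
      have : Continuous (fun z => ‖dz (un n) z‖ ^ p) := by
        unfold dz
        exact ((continuous_const.mul ((c1.clm_apply continuous_const).sub
          (continuous_const.mul (c1.clm_apply continuous_const)))).norm).rpow_const
            (fun _ => Or.inr hp0)
      exact this.aestronglyMeasurable
    · rw [Real.norm_eq_abs, abs_of_nonneg (by positivity)]
      exact Real.rpow_le_rpow (norm_nonneg _) ((norm_dz_le _ _).trans (hbd n z)) hp0
    · refine ((Tendsto.norm ?_).rpow_const (Or.inr hp0))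
      unfold dz
      exact ((hl z 1).sub ((hl z Complex.I).const_mul _)).const_mul _
  have hR : Tendsto (fun n => ∫ z, ‖dzbar (un n) z‖ ^ p) atTop (𝓝 (∫ z, ‖dzbar u z‖ ^ p)) := by
    refine tendsto_integral_of_dominated_convergence (fun z => (‖fderiv ℝ u z‖ + C' * ‖u z‖) ^ p)
      (fun n => ?_) hbint (fun n => Eventually.of_forall fun z => ?_)
      (Eventually.of_forall fun z => ?_)
    · have c1 := (hund n).continuous_fderiv (by norm_num)
      have : Continuous (fun z => ‖dzbar (un n) z‖ ^ p) := by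
        unfold dzbar
        exact ((continuous_const.mul ((c1.clm_apply continuous_const).add
          (continuous_const.mul (c1.clm_apply continuous_const)))).norm).rpow_const
            (fun _ => Or.inr hp0)
      exact this.aestronglyMeasurable
    · rw [Real.norm_eq_abs, abs_of_nonneg (by positivity)]
      exact Real.rpow_le_rpow (norm_nonneg _) ((norm_dzbar_le _ _).trans (hbd n z)) hp0
    · refine ((Tendsto.norm ?_).rpow_const (Or.inr hp0))
      unfold dzbar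
      exact ((hl z 1).add ((hl z Complex.I).const_mul _)).const_mul _
  exact le_of_tendsto_of_tendsto' hL (hR.const_mul (C ^ p)) fun n =>
    exch H (un n) (hund n) (hunc n)

/-- the norm of a Schwartz function -/
theorem eLp_eq {r : ℝ} (hr : 0 < r) (u : 𝓢(ℂ, ℂ)) :
    eLpNorm u (ENNReal.ofReal r) (volume : Measure ℂ)
      = ENNReal.ofReal ((∫ z, ‖u z‖ ^ r) ^ (1 / r)) := by
  rw [(u.memLp (ENNReal.ofReal r) volume).eLpNorm_eq_integral_rpow_norm
    (by rw [Ne, ENNReal.ofReal_eq_zero, not_le]; exact hr) ENNReal.ofReal_ne_top,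
    ENNReal.toReal_ofReal hr.le, one_div]

variable (g : 𝓢(ℂ, ℂ))

include H hp in
theorem ineq_n (n : ℕ) :
    ∫ z, ‖(𝓕⁻ (S1 g n) : 𝓢(ℂ, ℂ)) z‖ ^ p ≤ C ^ p * ∫ z, ‖(𝓕⁻ (S2 g n) : 𝓢(ℂ, ℂ)) z‖ ^ p := by
  have h := schwartz hp H (𝓕⁻ (Hs g n) : 𝓢(ℂ, ℂ))
  simp only [dz_pot, dzbar_pot] at h
  exact h

include H hp hC in
theorem ineq_eLp (n : ℕ) :
    eLpNorm (𝓕⁻ (S1 g n) : 𝓢(ℂ, ℂ)) (ENNReal.ofReal p) (volume : Measure ℂ)
      ≤ ENNReal.ofReal C *
        eLpNorm (𝓕⁻ (S2 g n) : 𝓢(ℂ, ℂ)) (ENNReal.ofReal p) (volume : Measure ℂ) := by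
  have hp0 : 0 < p := by linarith
  rw [eLp_eq hp0, eLp_eq hp0, ← ENNReal.ofReal_mul hC]
  apply ENNReal.ofReal_le_ofReal
  have h1 : C = (C ^ p) ^ (1 / p) := by
    rw [← Real.rpow_mul hC, mul_one_div, div_self hp0.ne', Real.rpow_one]
  have h2 : 0 ≤ ∫ z, ‖(𝓕⁻ (S2 g n) : 𝓢(ℂ, ℂ)) z‖ ^ p :=
    integral_nonneg (fun z => Real.rpow_nonneg (norm_nonneg _) _)
  have h3 : 0 ≤ ∫ z, ‖(𝓕⁻ (S1 g n) : 𝓢(ℂ, ℂ)) z‖ ^ p :=
    integral_nonneg (fun z => Real.rpow_nonneg (norm_nonneg _) _)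
  have h4 : C * (∫ z, ‖(𝓕⁻ (S2 g n) : 𝓢(ℂ, ℂ)) z‖ ^ p) ^ (1 / p)
      = (C ^ p * ∫ z, ‖(𝓕⁻ (S2 g n) : 𝓢(ℂ, ℂ)) z‖ ^ p) ^ (1 / p) := by
    rw [Real.mul_rpow (Real.rpow_nonneg hC _) h2, ← h1]
  rw [h4]
  exact Real.rpow_le_rpow h3 (ineq_n hp H g n) (by positivity)

include hp in
theorem Lp_bound (u : 𝓢(ℂ, ℂ)) :
    ∫ z, ‖(𝓕⁻ u : 𝓢(ℂ, ℂ)) z‖ ^ p ≤ (∫ ξ, ‖u ξ‖) ^ (p - 2) * ∫ ξ, ‖u ξ‖ ^ 2 := by
  have hp0 : 0 < p := by linarith
  rw [← L2_eq u, ← integral_const_mul]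
  refine integral_mono ?_ ?_ fun z => ?_
  · have := ((𝓕⁻ u : 𝓢(ℂ, ℂ)).memLp (ENNReal.ofReal p) volume).integrable_norm_rpow
      (by rw [Ne, ENNReal.ofReal_eq_zero, not_le]; exact hp0) ENNReal.ofReal_ne_top
    rwa [ENNReal.toReal_ofReal hp0.le] at this
  · exact (((𝓕⁻ u : 𝓢(ℂ, ℂ)).memLp 2 volume).integrable_norm_pow (by norm_num)).const_mul _
  · simp only
    have h := sup_bound u z
    have e : ‖(𝓕⁻ u : 𝓢(ℂ, ℂ)) z‖ ^ p
        = ‖(𝓕⁻ u : 𝓢(ℂ, ℂ)) z‖ ^ (p - 2) * ‖(𝓕⁻ u : 𝓢(ℂ, ℂ)) z‖ ^ 2 := by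
      rw [← Real.rpow_natCast, ← Real.rpow_add' (norm_nonneg _)]
      · congr 1
        push_cast
        ring
      · push_cast
        have : p - 2 + 2 = p := by ring
        rw [this]
        exact hp0.ne'
    rw [e]
    exact mul_le_mul_of_nonneg_right (Real.rpow_le_rpow (norm_nonneg _) h (by linarith))
      (by positivity)

include hp in
theorem rem_tendsto :
    Tendsto (fun n => eLpNorm (𝓕⁻ (Rs g n) : 𝓢(ℂ, ℂ)) (ENNReal.ofReal p) (volume : Measure ℂ))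
      atTop (𝓝 0) := by
  have hp0 : 0 < p := by linarith
  simp only [eLp_eq hp0]
  have hbdd : Tendsto (fun n => (∫ ξ, ‖Rs g n ξ‖) ^ (p - 2)) atTop (𝓝 (0 ^ (p - 2))) :=
    (Rs_int_one g).rpow_const (Or.inr (by linarith))
  have h1 : Tendsto (fun n => (∫ ξ, ‖Rs g n ξ‖) ^ (p - 2) * ∫ ξ, ‖Rs g n ξ‖ ^ 2) atTop (𝓝 0) := by
    simpa using hbdd.mul (Rs_int_two g)
  have h2 : Tendsto (fun n => ∫ z, ‖(𝓕⁻ (Rs g n) : 𝓢(ℂ, ℂ)) z‖ ^ p) atTop (𝓝 0) :=
    squeeze_zero (fun n => integral_nonneg (fun z => Real.rpow_nonneg (norm_nonneg _) _))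
      (fun n => Lp_bound hp (Rs g n)) h1
  have h3 := h2.rpow_const (p := (1 / p : ℝ)) (Or.inr (by positivity))
  rw [Real.zero_rpow (by positivity)] at h3
  have h4 := ENNReal.tendsto_ofReal h3
  simpa using h4

end

theorem mult : S_Mult := by
  intro p C hp hC H f
  set g : 𝓢(ℂ, ℂ) := 𝓕 f with hg
  have hp1 : (1 : ENNReal) ≤ ENNReal.ofReal p := by
    rw [ENNReal.one_le_ofReal]
    linarith
  have hgf : (𝓕⁻ g : 𝓢(ℂ, ℂ)) = f := by rw [hg, FourierTransform.fourierInv_fourier_eq]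
  have e0 : ∀ ξ, 𝓕 (f : ℂ → ℂ) ξ = g ξ := fun ξ => by rw [hg, SchwartzMap.fourier_coe]
  have eB : Beu f = fun z => 𝓕⁻ (fun ξ : ℂ => starRingEnd ℂ ξ / ξ * g ξ) z := by
    funext z
    unfold Beu
    simp only [e0]
  rw [eB]
  have hB : ∀ n, eLpNorm (𝓕⁻ (S2 g n) : 𝓢(ℂ, ℂ)) (ENNReal.ofReal p) (volume : Measure ℂ)
      ≤ eLpNorm f (ENNReal.ofReal p) (volume : Measure ℂ)
        + eLpNorm (𝓕⁻ (Rs g n) : 𝓢(ℂ, ℂ)) (ENNReal.ofReal p) (volume : Measure ℂ) := by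
    intro n
    have e1 : S2 g n = g + Rs g n := by unfold Rs; abel
    have e2 : ((𝓕⁻ (S2 g n) : 𝓢(ℂ, ℂ)) : ℂ → ℂ)
        = (f : ℂ → ℂ) + ((𝓕⁻ (Rs g n) : 𝓢(ℂ, ℂ)) : ℂ → ℂ) := by
      rw [e1, FourierTransform.fourierInv_add, hgf]
      rfl
    rw [e2]
    exact eLpNorm_add_le f.continuous.aestronglyMeasurable
      (𝓕⁻ (Rs g n) : 𝓢(ℂ, ℂ)).continuous.aestronglyMeasurable hp1
  have hA : ∀ n, eLpNorm (𝓕⁻ (S1 g n) : 𝓢(ℂ, ℂ)) (ENNReal.ofReal p) (volume : Measure ℂ)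
      ≤ ENNReal.ofReal C * (eLpNorm f (ENNReal.ofReal p) (volume : Measure ℂ)
        + eLpNorm (𝓕⁻ (Rs g n) : 𝓢(ℂ, ℂ)) (ENNReal.ofReal p) (volume : Measure ℂ)) := fun n =>
    (ineq_eLp hp hC H g n).trans (mul_le_mul_right (hB n) _)
  refine (Lp.eLpNorm_lim_le_liminf_eLpNorm
    (f := fun n => ((𝓕⁻ (S1 g n) : 𝓢(ℂ, ℂ)) : ℂ → ℂ))
    (fun n => (𝓕⁻ (S1 g n) : 𝓢(ℂ, ℂ)).continuous.aestronglyMeasurable) _
    (Eventually.of_forall fun z => S1_pointwise g z)).trans ?_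
  have hlim : Tendsto (fun n => ENNReal.ofReal C *
      (eLpNorm f (ENNReal.ofReal p) (volume : Measure ℂ)
        + eLpNorm (𝓕⁻ (Rs g n) : 𝓢(ℂ, ℂ)) (ENNReal.ofReal p) (volume : Measure ℂ))) atTop
      (𝓝 (ENNReal.ofReal C * (eLpNorm f (ENNReal.ofReal p) (volume : Measure ℂ) + 0))) :=
    ENNReal.Tendsto.const_mul (tendsto_const_nhds.add (rem_tendsto hp g))
      (Or.inr ENNReal.ofReal_ne_top)
  rw [add_zero] at hlim
  rw [← hlim.liminf_eq]
  exact liminf_le_liminf (Eventually.of_forall hA)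

end Pool.Agent.W374.BAMult
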